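import Mathlib

set_option autoImplicit false

/-! Sums over boxes from sums over diagonals. -/

namespace Pool.Agent.W5h34.BZ

/-- the box -/
def box (q r K : ℕ) : Finset (Fin q → Fin r → ℕ) :=
  Fintype.piFinset fun _ => Fintype.piFinset fun _ => Finset.range K

theorem mem_box {q r K : ℕ} (a : Fin q → Fin r → ℕ) : a ∈ box q r K ↔ ∀ i k, a i k < K := by
  unfold box
  simp [Fintype.mem_piFinset]

/-- the part of the box with prescribed zeros -/
def face (q r K : ℕ) (ι : Fin r → Fin q) : Finset (Fin q → Fin r → ℕ) :=
  Fintype.piFinset fun i => Fintype.piFinset fun k => if i = ι k then {0} else Finset.range K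

theorem card_face (q r K : ℕ) (ι : Fin r → Fin q) : (face q r K ι).card = (K ^ (q - 1)) ^ r := by
  unfold face
  rw [Fintype.card_piFinset]
  simp only [Fintype.card_piFinset]
  rw [Finset.prod_comm]
  have h : ∀ k : Fin r, ∏ i : Fin q, (if i = ι k then ({0} : Finset ℕ) else Finset.range K).card
      = K ^ (q - 1) := by
    intro k
    have h1 : ∀ i : Fin q, (if i = ι k then ({0} : Finset ℕ) else Finset.range K).card
        = if i = ι k then 1 else K := by
      intro i
      split_ifs <;> simp
    rw [Finset.prod_congr rfl fun i _ => h1 i, Finset.prod_ite]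
    simp only [Finset.prod_const_one, one_mul, Finset.prod_const]
    congr 1
    rw [Finset.filter_not, Finset.filter_eq' Finset.univ (ι k), if_pos (Finset.mem_univ _),
      Finset.card_sdiff_of_subset (Finset.subset_univ _)]
    simp
  rw [Finset.prod_congr rfl fun k _ => h k, Finset.prod_const, Finset.card_univ, Fintype.card_fin]

theorem box_sum {q r K : ℕ} (hq : 0 < q) (F : (Fin q → Fin r → ℕ) → ℝ) (hF : ∀ a, 0 ≤ F a)
    (c : ℝ) (hdiag : ∀ b : Fin q → Fin r → ℕ,
      ∑ s ∈ Fintype.piFinset (fun _ : Fin r => Finset.range K), F (fun i k => b i k + s k) ≤ c) :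
    ∑ a ∈ box q r K, F a ≤ (q : ℝ) ^ r * (((K : ℝ) ^ (q - 1)) ^ r * c) := by
  classical
  have : Nonempty (Fin q) := ⟨⟨0, hq⟩⟩
  -- a minimal entry in every column
  let ty : (Fin r → Fin q) → (Fin q → Fin r → ℕ) → Prop := fun ι a => ∀ i k, a (ι k) k ≤ a i k
  have hty : ∀ a, ∃ ι, ty ι a := by
    intro a
    have h1 : ∀ k : Fin r, ∃ i₀ : Fin q, ∀ i, a i₀ k ≤ a i k := fun k =>
      Finite.exists_min (fun i => a i k)
    choose ι hι using h1
    exact ⟨ι, fun i k => hι k i⟩
  have h1 : ∑ a ∈ box q r K, F a
      ≤ ∑ ι : Fin r → Fin q, ∑ a ∈ (box q r K).filter (ty ι), F a := by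
    have h2 : ∀ ι : Fin r → Fin q, ∑ a ∈ (box q r K).filter (ty ι), F a
        = ∑ a ∈ box q r K, if ty ι a then F a else 0 := fun ι => Finset.sum_filter _ _
    rw [Finset.sum_congr rfl fun ι _ => h2 ι, Finset.sum_comm]
    refine Finset.sum_le_sum fun a _ => ?_
    obtain ⟨ι, hι⟩ := hty a
    have h3 := Finset.single_le_sum (f := fun ι => if ty ι a then F a else 0)
      (fun ι _ => by
        change 0 ≤ if ty ι a then F a else 0
        split_ifs
        · exact hF a
        · exact le_rfl) (Finset.mem_univ ι)
    simp only [if_pos hι] at h3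
    exact h3
  have h2 : ∀ ι : Fin r → Fin q, ∑ a ∈ (box q r K).filter (ty ι), F a
      ≤ ((K : ℝ) ^ (q - 1)) ^ r * c := by
    intro ι
    let e : (Fin q → Fin r → ℕ) → (Fin q → Fin r → ℕ) × (Fin r → ℕ) := fun a =>
      (fun i k => a i k - a (ι k) k, fun k => a (ι k) k)
    let F' : (Fin q → Fin r → ℕ) × (Fin r → ℕ) → ℝ := fun z => F (fun i k => z.1 i k + z.2 k)
    have he : ∀ a ∈ (box q r K).filter (ty ι), F' (e a) = F a := by
      intro a ha
      have h3 := (Finset.mem_filter.1 ha).2
      change F (fun i k => a i k - a (ι k) k + a (ι k) k) = F a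
      congr 1
      funext i k
      exact Nat.sub_add_cancel (h3 i k)
    have hinj : Set.InjOn e ((box q r K).filter (ty ι) : Finset (Fin q → Fin r → ℕ)) := by
      intro a ha a' ha' h
      have h3 := (Finset.mem_filter.1 ha).2
      have h3' := (Finset.mem_filter.1 ha').2
      have h4 := congrArg Prod.fst h
      have h5 := congrArg Prod.snd h
      funext i k
      have h6 : a i k - a (ι k) k = a' i k - a' (ι k) k := congrFun (congrFun h4 i) k
      have h7 : a (ι k) k = a' (ι k) k := congrFun h5 k
      have h8 := h3 i k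
      have h8' := h3' i k
      omega
    have hsub : ((box q r K).filter (ty ι)).image e
        ⊆ face q r K ι ×ˢ Fintype.piFinset (fun _ : Fin r => Finset.range K) := by
      intro z hz
      obtain ⟨a, ha, rfl⟩ := Finset.mem_image.1 hz
      have h3 := (mem_box a).1 (Finset.mem_filter.1 ha).1
      rw [Finset.mem_product]
      constructor
      · unfold face
        rw [Fintype.mem_piFinset]
        intro i
        rw [Fintype.mem_piFinset]
        intro k
        change a i k - a (ι k) k ∈ _
        split_ifs with hik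
        · rw [hik]; simp
        · rw [Finset.mem_range]
          have := h3 i k
          omega
      · rw [Fintype.mem_piFinset]
        intro k
        rw [Finset.mem_range]
        exact h3 _ _
    calc ∑ a ∈ (box q r K).filter (ty ι), F a
        = ∑ a ∈ (box q r K).filter (ty ι), F' (e a) :=
          (Finset.sum_congr rfl fun a ha => he a ha).symm
      _ = ∑ z ∈ ((box q r K).filter (ty ι)).image e, F' z := (Finset.sum_image hinj).symm
      _ ≤ ∑ z ∈ face q r K ι ×ˢ Fintype.piFinset (fun _ : Fin r => Finset.range K), F' z :=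
          Finset.sum_le_sum_of_subset_of_nonneg hsub fun z _ _ => hF _
      _ = ∑ b ∈ face q r K ι, ∑ s ∈ Fintype.piFinset (fun _ : Fin r => Finset.range K),
            F (fun i k => b i k + s k) := Finset.sum_product _ _ _
      _ ≤ ∑ _b ∈ face q r K ι, c := Finset.sum_le_sum fun b _ => hdiag b
      _ = _ := by
          rw [Finset.sum_const, card_face, nsmul_eq_mul]
          push_cast
          rfl
  refine h1.trans ((Finset.sum_le_sum fun ι _ => h2 ι).trans (le_of_eq ?_))
  rw [Finset.sum_const, Finset.card_univ, Fintype.card_fun, Fintype.card_fin, Fintype.card_fin,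
    nsmul_eq_mul]
  push_cast
  rfl

end Pool.Agent.W5h34.BZ
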