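import Pool.Agent.W5h34.BZ.Det

set_option autoImplicit false
set_option linter.unusedSectionVars false

open scoped InnerProductSpace InnerProduct ENNReal

/-! The Bezout inequality. -/

namespace Pool.Agent.W5h34.BZ

open Pool.Agent.W649.ZL (EE vd Eqv tr)
open Pool.Agent.W5h34.AT (op op_apply op_eqv)

universe u v w

/-- a linear form which separates finitely many points -/
theorem exists_form {r : ℕ} (P : Finset (Fin r → ℂ)) :
    ∃ ε : Fin r → ℂ, Set.InjOn (fun p : Fin r → ℂ => ∑ k, ε k * p k) P := by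
  classical
  let q : (Fin r → ℂ) × (Fin r → ℂ) → Polynomial ℂ := fun z =>
    ∑ k : Fin r, Polynomial.C (z.1 k - z.2 k) * Polynomial.X ^ (k : ℕ)
  have hq : ∀ z, z.1 ≠ z.2 → q z ≠ 0 := by
    intro z hz h0
    apply hz
    funext k
    have h1 : (q z).coeff (k : ℕ) = z.1 k - z.2 k := by
      simp only [q]
      rw [Polynomial.finsetSum_coeff, Finset.sum_eq_single k]
      · rw [Polynomial.coeff_C_mul, Polynomial.coeff_X_pow, if_pos rfl, mul_one]
      · intro b _ hb
        rw [Polynomial.coeff_C_mul, Polynomial.coeff_X_pow, if_neg, mul_zero]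
        intro h
        exact hb (Fin.ext h.symm)
      · intro h; exact absurd (Finset.mem_univ _) h
    rw [h0, Polynomial.coeff_zero] at h1
    exact (sub_eq_zero.1 h1.symm)
  let bad : Finset ℂ := ((P ×ˢ P).filter (fun z => z.1 ≠ z.2)).biUnion fun z => (q z).roots.toFinset
  obtain ⟨c, hc⟩ := Infinite.exists_notMem_finset bad
  refine ⟨fun k => c ^ (k : ℕ), fun p hp p' hp' h => ?_⟩
  by_contra hne
  apply hc
  rw [Finset.mem_biUnion]
  refine ⟨(p, p'), ?_, ?_⟩
  · rw [Finset.mem_filter, Finset.mem_product]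
    exact ⟨⟨hp, hp'⟩, hne⟩
  · rw [Multiset.mem_toFinset, Polynomial.mem_roots (hq (p, p') hne), Polynomial.IsRoot.def]
    simp only [q]
    rw [Polynomial.eval_finsetSum]
    simp only [Polynomial.eval_mul, Polynomial.eval_C, Polynomial.eval_pow, Polynomial.eval_X]
    have h' : ∑ k : Fin r, c ^ (k : ℕ) * p k = ∑ k : Fin r, c ^ (k : ℕ) * p' k := h
    have : ∑ k : Fin r, (p k - p' k) * c ^ (k : ℕ)
        = ∑ k : Fin r, c ^ (k : ℕ) * p k - ∑ k : Fin r, c ^ (k : ℕ) * p' k := by
      rw [← Finset.sum_sub_distrib]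
      exact Finset.sum_congr rfl fun k _ => by ring
    rw [this, h', sub_self]

section
variable {G : Type u} {r : ℕ} {J : Type v} {L : Type w}
variable [Group G] [Fintype J] [Fintype L] [DecidableEq J] [DecidableEq L]

/-- the member of the family -/
noncomputable def fam (a₀ : J → L → (G →₀ ℂ)) (a : Fin r → J → L → (G →₀ ℂ)) (p : Fin r → ℂ) :
    J → L → (G →₀ ℂ) := fun j l => a₀ j l + ∑ k, p k • a k j l

theorem op_fam (a₀ : J → L → (G →₀ ℂ)) (a : Fin r → J → L → (G →₀ ℂ)) (p : Fin r → ℂ)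
    (f : EE G J) : op (fam a₀ a p) f = op a₀ f + ∑ k, p k • op (a k) f := by
  ext ⟨u, l⟩
  change _ = op a₀ f (u, l) + (∑ k, p k • op (a k) f) (u, l)
  rw [W649.ZL.sum_apply_EE, op_apply]
  have e1 : (fun j => fam a₀ a p j l) = (fun j => a₀ j l) + ∑ k, p k • (fun j => a k j l) := by
    funext j
    simp [fam]
  rw [e1, map_add, map_sum, op_apply]
  change AT.cop (fun j => a₀ j l) f (u, ())
    + (∑ k, AT.cop (p k • fun j => a k j l)) f (u, ()) = _
  congr 1
  rw [sum_apply, W649.ZL.sum_apply_EE]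
  refine Finset.sum_congr rfl fun k _ => ?_
  rw [map_smul]
  change p k * AT.cop (fun j => a k j l) f (u, ()) = p k * op (a k) f (u, l)
  rw [op_apply]

/-- **Bezout inequality.** -/
theorem bezout (a₀ : J → L → (G →₀ ℂ)) (a : Fin r → J → L → (G →₀ ℂ))
    (N : Submodule ℂ (EE G J)) (hN : IsClosed (N : Set (EE G J)))
    (M : Submodule ℂ (EE (Fin r → G) (Fin r → J))) (hMi : W649.ZL.Inv M)
    (hMc : IsClosed (M : Set (EE (Fin r → G) (Fin r → J))))
    (hNM : ∀ f : Fin r → EE G J, (∀ i, f i ∈ N) → tens f ∈ M) (P : Finset (Fin r → ℂ)) :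
    ∑ p ∈ P, max (vd (N ⊓ LinearMap.ker (op (fam a₀ a p) : EE G J →ₗ[ℂ] EE G L)) ^ r
        - vd (M ⊓ LinearMap.ker (op (bdet a) : EE (Fin r → G) (Fin r → J) →ₗ[ℂ]
          EE (Fin r → G) (Fin r → L)))) 0
      ≤ vd M - vd (M ⊓ LinearMap.ker (op (bdet a) : EE (Fin r → G) (Fin r → J) →ₗ[ℂ]
          EE (Fin r → G) (Fin r → L))) := by
  classical
  obtain ⟨ε, hε⟩ := exists_form P
  set φ := op (bdet a) with hφ
  set t : EE (Fin r → G) (Fin r → J) →L[ℂ] EE (Fin r → G) (Fin r → L) :=
    ∑ k, ε k • op (bdet (Function.update a k a₀)) with ht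
  have hte : Eqv t := by
    intro k f
    rw [ht, sum_apply, sum_apply, W649.ZL.tr_sum]
    refine Finset.sum_congr rfl fun i _ => ?_
    change ε i • op (bdet (Function.update a i a₀)) (tr k f)
      = tr k (ε i • op (bdet (Function.update a i a₀)) f)
    rw [op_eqv, W649.ZL.tr_smul]
  have hφe : Eqv φ := op_eqv (bdet a)
  set lam : (Fin r → ℂ) → ℂ := fun p => ∑ k, ε k * p k with hlam
  have h1 := AT.pencil_finset M hMi hMc t φ hte hφe (P.image lam)
  rw [Finset.sum_image hε] at h1
  refine le_trans (Finset.sum_le_sum fun p _ => ?_) (h1.trans (min_le_right _ _))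
  apply max_le_max _ le_rfl
  apply sub_le_sub_right
  apply vd_tens
  · rw [Submodule.coe_inf]
    exact hN.inter (ContinuousLinearMap.isClosed_ker _)
  · rw [Submodule.coe_inf]
    exact hMc.inter (ContinuousLinearMap.isClosed_ker _)
  · intro f hf
    refine ⟨hNM f fun i => (hf i).1, ?_⟩
    change t (tens f) + lam p • φ (tens f) = 0
    have h2 : ∀ i, op a₀ (f i) = -∑ k, p k • op (a k) (f i) := by
      intro i
      have h3 : op (fam a₀ a p) (f i) = 0 := (hf i).2
      rw [op_fam] at h3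
      exact eq_neg_of_add_eq_zero_left h3
    have h3 : t (tens f) = -lam p • φ (tens f) := by
      rw [ht, sum_apply]
      have h4 : ∀ k : Fin r, (ε k • op (bdet (Function.update a k a₀))) (tens f)
          = (-(ε k * p k)) • φ (tens f) := by
        intro k
        change ε k • op (bdet (Function.update a k a₀)) (tens f) = _
        rw [cramer a₀ a p f h2 k, smul_smul]
        congr 1
        ring
      rw [Finset.sum_congr rfl fun k _ => h4 k, ← Finset.sum_smul, Finset.sum_neg_distrib]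
    rw [h3, neg_smul, neg_add_cancel]

end

end Pool.Agent.W5h34.BZ
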