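import Pool.Agent.W5h34.BZ.Tens
import Pool.Agent.W5h34.AT.Pat

set_option autoImplicit false
set_option linter.unusedSectionVars false

open scoped InnerProductSpace InnerProduct ENNReal

/-! Operator determinants. -/

namespace Pool.Agent.W5h34.BZ

open Pool.Agent.W649.ZL (EE vd Eqv tr)
open Pool.Agent.W5h34.AT (op op_apply op_eqv)

universe u v w

section
variable {G : Type u} {r : ℕ}

/-- the tensor product of elements of the group ring -/
noncomputable def tprod (u : Fin r → (G →₀ ℂ)) : (Fin r → G) →₀ ℂ :=
  Finsupp.onFinset (Fintype.piFinset fun i => (u i).support) (fun x => ∏ i, u i (x i)) (by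
    intro x hx
    rw [Fintype.mem_piFinset]
    intro i
    rw [Finsupp.mem_support_iff]
    intro h
    exact hx (Finset.prod_eq_zero (Finset.mem_univ i) h))

theorem tprod_apply (u : Fin r → (G →₀ ℂ)) (x : Fin r → G) : tprod u x = ∏ i, u i (x i) := rfl

theorem tprod_sum (u : Fin r → (G →₀ ℂ)) (F : Fin r → G → ℂ) :
    (tprod u).sum (fun t c => c * ∏ i, F i (t i)) = ∏ i, (u i).sum (fun t c => c * F i t) := by
  classical
  have h1 : (tprod u).sum (fun t c => c * ∏ i, F i (t i))
      = ∑ t ∈ Fintype.piFinset (fun i => (u i).support), tprod u t * ∏ i, F i (t i) := by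
    apply Finsupp.sum_of_support_subset
    · exact Finsupp.support_onFinset_subset
    · intro t _
      rw [zero_mul]
  rw [h1]
  simp only [Finsupp.sum]
  rw [Finset.prod_univ_sum]
  refine Finset.sum_congr rfl fun t _ => ?_
  rw [tprod_apply, Finset.prod_mul_distrib]

variable {J : Type v} {L : Type w}

/-- the operator determinant of `r` matrices -/
noncomputable def bdet (a : Fin r → J → L → (G →₀ ℂ)) :
    (Fin r → J) → (Fin r → L) → ((Fin r → G) →₀ ℂ) :=
  fun j l => ∑ π : Equiv.Perm (Fin r), ((Equiv.Perm.sign π : ℤ) : ℂ) •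
    tprod (fun i => a (π i) (j i) (l i))

variable [Group G] [Fintype J] [Fintype L] [DecidableEq J] [DecidableEq L]

theorem op_apply' (A : J → L → (G →₀ ℂ)) (f : EE G J) (u : G) (l : L) :
    op A f (u, l) = ∑ j : J, (A j l).sum (fun t c => c * f (t * u, j)) := by
  rw [op_apply, AT.cop_apply]
  rfl

/-- the operator determinant on a tensor product is a determinant -/
theorem op_bdet (a : Fin r → J → L → (G →₀ ℂ)) (f : Fin r → EE G J)
    (x : (Fin r → G)) (l : Fin r → L) :
    op (bdet a) (tens f) (x, l)
      = Matrix.det (Matrix.of fun k i : Fin r => op (a k) (f i) (x i, l i)) := by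
  have hsum : ∀ (j : Fin r → J), (bdet a j l).sum (fun t c => c * tens f (t * x, j))
      = ∑ π : Equiv.Perm (Fin r), ((Equiv.Perm.sign π : ℤ) : ℂ)
        * ∏ i, (a (π i) (j i) (l i)).sum (fun t c => c * f i (t * x i, j i)) := by
    intro j
    unfold bdet
    rw [← Finsupp.sum_finsetSum_index (by intros; simp) (by intros; ring)]
    refine Finset.sum_congr rfl fun π _ => ?_
    rw [Finsupp.sum_smul_index' (by intros; simp)]
    have h1 : (tprod fun i => a (π i) (j i) (l i)).sum
        (fun t c => (((Equiv.Perm.sign π : ℤ) : ℂ) • c) * tens f (t * x, j))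
        = ((Equiv.Perm.sign π : ℤ) : ℂ) * (tprod fun i => a (π i) (j i) (l i)).sum
          (fun t c => c * ∏ i, f i (t i * x i, j i)) := by
      rw [Finsupp.mul_sum]
      refine Finset.sum_congr rfl fun t _ => ?_
      simp only [smul_eq_mul, mul_assoc]
      rfl
    rw [h1, tprod_sum _ (fun i t => f i (t * x i, j i))]
  rw [op_apply', Finset.sum_congr rfl fun j _ => hsum j, Finset.sum_comm, Matrix.det_apply']
  refine Finset.sum_congr rfl fun π _ => ?_
  rw [← Finset.mul_sum]
  congr 1
  have h2 := Finset.prod_univ_sum (fun _ : Fin r => (Finset.univ : Finset J))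
    (fun i j => (a (π i) j (l i)).sum (fun t c => c * f i (t * x i, j)))
  rw [Fintype.piFinset_univ] at h2
  rw [← h2]
  refine Finset.prod_congr rfl fun i _ => ?_
  rw [Matrix.of_apply, op_apply']

/-- Cramer's rule -/
theorem cramer (a₀ : J → L → (G →₀ ℂ)) (a : Fin r → J → L → (G →₀ ℂ)) (p : Fin r → ℂ)
    (f : Fin r → EE G J) (hf : ∀ i, op a₀ (f i) = -∑ k, p k • op (a k) (f i)) (k : Fin r) :
    op (bdet (Function.update a k a₀)) (tens f) = -p k • op (bdet a) (tens f) := by
  ext ⟨x, l⟩
  change _ = -p k * op (bdet a) (tens f) (x, l)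
  rw [op_bdet, op_bdet]
  set N : Matrix (Fin r) (Fin r) ℂ := Matrix.of fun k i : Fin r => op (a k) (f i) (x i, l i)
    with hN
  have h1 : (Matrix.of fun k' i : Fin r => op (Function.update a k a₀ k') (f i) (x i, l i))
      = N.updateRow k (∑ k', (-p k') • N k') := by
    ext k' i
    rw [Matrix.updateRow_apply]
    by_cases hk : k' = k
    · rw [if_pos hk, hk, Matrix.of_apply, Function.update_self, hf i, Finset.sum_apply]
      change -((∑ k, p k • op (a k) (f i)) (x i, l i)) = _
      rw [W649.ZL.sum_apply_EE, ← Finset.sum_neg_distrib]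
      refine Finset.sum_congr rfl fun k'' _ => ?_
      change -(p k'' * op (a k'') (f i) (x i, l i)) = -p k'' * op (a k'') (f i) (x i, l i)
      ring
    · rw [if_neg hk, Matrix.of_apply, Function.update_of_ne hk]
      rfl
  rw [h1, Matrix.det_updateRow_sum, smul_eq_mul]

end

end Pool.Agent.W5h34.BZ
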