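import Pool.Agent.W5h34.BZ.Bez
import Pool.Agent.W649.ZL.Supp

set_option autoImplicit false
set_option linter.unusedSectionVars false

open scoped InnerProductSpace InnerProduct ENNReal

/-! Injectivity of operator determinants of monomial matrices. -/

namespace Pool.Agent.W5h34.BZ

open Pool.Agent.W649.ZL (EE vd Eqv tr cosub LI)
open Pool.Agent.W5h34.AT (op op_apply op_eqv)

universe u v w

theorem LI_of_hom {X : Type u} [Group X] {ι : Type v} (Y : ι → Type u) [∀ i, Group (Y i)]
    (hY : ∀ i, LI (Y i)) (ψ : ∀ i, X →* Y i) (hψ : ∀ x, (∀ i, ψ i x = 1) → x = 1) : LI X := by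
  intro K hK hKne
  obtain ⟨k, hk, hk1⟩ : ∃ k ∈ K, k ≠ 1 := by
    by_contra hcon
    push Not at hcon
    exact hKne ((Subgroup.eq_bot_iff_forall K).2 hcon)
  obtain ⟨i, hi⟩ : ∃ i, ψ i k ≠ 1 := by
    by_contra hcon
    push Not at hcon
    exact hk1 (hψ k hcon)
  have h1 : (K.map (ψ i)).FG := by
    classical
    obtain ⟨S, hS⟩ := hK
    exact ⟨S.image (ψ i), by rw [Finset.coe_image, ← MonoidHom.map_closure, hS]⟩
  have h2 : K.map (ψ i) ≠ ⊥ := by
    intro h0
    apply hi
    have : ψ i k ∈ K.map (ψ i) := Subgroup.mem_map_of_mem _ hk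
    rw [h0] at this
    exact Subgroup.mem_bot.1 this
  obtain ⟨φ, y, hy⟩ := hY i _ h1 h2
  obtain ⟨x, hx⟩ := (ψ i).subgroupMap_surjective K y
  refine ⟨φ.comp ((ψ i).subgroupMap K), x, ?_⟩
  rw [MonoidHom.comp_apply, hx]
  exact hy

section
variable {G : Type u} [Group G] {r : ℕ}

theorem LI_pi (H : Fin r → Subgroup G) (hH : ∀ s, LI (H s)) :
    LI (Subgroup.pi Set.univ H) := by
  refine LI_of_hom (ι := Fin r) (fun s => H s) hH (fun s =>
    ((Pi.evalMonoidHom (fun _ : Fin r => G) s).comp (Subgroup.subtype _)).codRestrict (H s)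
      (fun x => x.2 s (Set.mem_univ s))) ?_
  intro x hx
  apply Subtype.ext
  funext s
  exact congrArg Subtype.val (hx s)

/-- the alternating element -/
noncomputable def alt (t : Fin r → Fin r → (G →₀ ℂ)) : (Fin r → G) →₀ ℂ :=
  ∑ π : Equiv.Perm (Fin r), ((Equiv.Perm.sign π : ℤ) : ℂ) • tprod (fun s => t s (π s))

theorem exists_dual (f : Fin r → (G →₀ ℂ)) (hf : LinearIndependent ℂ f) (s : Fin r) :
    ∃ c : G → ℂ, ∀ k, (f k).sum (fun t x => x * c t) = if k = s then 1 else 0 := by
  let φ : Submodule.span ℂ (Set.range f) →ₗ[ℂ] ℂ := (Finsupp.lapply s) ∘ₗ hf.repr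
  obtain ⟨ψ, hψ⟩ := LinearMap.exists_extend φ
  refine ⟨fun t => ψ (Finsupp.single t 1), fun k => ?_⟩
  have h1 : (f k).sum (fun t x => x * ψ (Finsupp.single t 1)) = ψ (f k) := by
    conv_rhs => rw [← Finsupp.sum_single (f k)]
    rw [Finsupp.sum, Finsupp.sum, map_sum]
    refine Finset.sum_congr rfl fun t _ => ?_
    rw [← smul_eq_mul, ← map_smul, Finsupp.smul_single, smul_eq_mul, mul_one]
  have h2 : ψ (f k) = φ ⟨f k, Submodule.subset_span ⟨k, rfl⟩⟩ := by
    rw [← hψ]; rfl
  rw [h1, h2]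
  change (hf.repr ⟨f k, _⟩) s = _
  rw [hf.repr_eq_single k ⟨f k, Submodule.subset_span ⟨k, rfl⟩⟩ rfl, Finsupp.single_apply]

theorem alt_ne_zero (t : Fin r → Fin r → (G →₀ ℂ)) (ht : ∀ s, LinearIndependent ℂ (t s)) :
    alt t ≠ 0 := by
  classical
  intro h
  choose c hc using fun s => exists_dual (t s) (ht s) s
  have h1 : (alt t).sum (fun τ x => x * ∏ s, c s (τ s)) = 1 := by
    unfold alt
    rw [← Finsupp.sum_finsetSum_index (by intros; simp) (by intros; ring),
      Finset.sum_eq_single 1]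
    · rw [Finsupp.sum_smul_index' (by intros; simp)]
      simp only [Equiv.Perm.sign_one, Units.val_one, Int.cast_one, one_smul,
        Equiv.Perm.coe_one, id]
      rw [tprod_sum]
      exact Finset.prod_eq_one fun s _ => by rw [hc, if_pos rfl]
    · intro π _ hπ
      rw [Finsupp.sum_smul_index' (by intros; simp)]
      have h2 : (tprod fun s => t s (π s)).sum
          (fun τ x => (((Equiv.Perm.sign π : ℤ) : ℂ) • x) * ∏ s, c s (τ s))
          = ((Equiv.Perm.sign π : ℤ) : ℂ) * (tprod fun s => t s (π s)).sum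
            (fun τ x => x * ∏ s, c s (τ s)) := by
        rw [Finsupp.mul_sum]
        refine Finset.sum_congr rfl fun τ _ => ?_
        simp only [smul_eq_mul, mul_assoc]
      rw [h2, tprod_sum]
      obtain ⟨s, hs⟩ : ∃ s, π s ≠ s := by
        by_contra hcon
        push Not at hcon
        exact hπ (Equiv.ext hcon)
      rw [Finset.prod_eq_zero (Finset.mem_univ s) (by rw [hc, if_neg hs]), mul_zero]
    · intro hh; exact absurd (Finset.mem_univ _) hh
  rw [h, Finsupp.sum_zero_index] at h1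
  exact zero_ne_one h1

theorem alt_support (t : Fin r → Fin r → (G →₀ ℂ)) (x : Fin r → G) (hx : x ∈ (alt t).support)
    (s : Fin r) : ∃ k, x s ∈ (t s k).support := by
  classical
  by_contra hcon
  push Not at hcon
  apply Finsupp.mem_support_iff.1 hx
  unfold alt
  rw [Finsupp.finsetSum_apply]
  refine Finset.sum_eq_zero fun π _ => ?_
  have h1 : ∏ i, (t i (π i)) (x i) = 0 :=
    Finset.prod_eq_zero (Finset.mem_univ s) (Finsupp.notMem_support_iff.1 (hcon (π s)))
  rw [Finsupp.smul_apply, tprod_apply, h1, smul_zero]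

/-- square-summable functions killed by the alternating element -/
theorem alt_injective (t : Fin r → Fin r → (G →₀ ℂ)) (ht : ∀ s, LinearIndependent ℂ (t s))
    (H : Fin r → Subgroup G) (hH : ∀ s, LI (H s)) (g : Fin r → G)
    (hg : ∀ s k, ∀ x ∈ (t s k).support, x * (g s)⁻¹ ∈ H s) (h : EE (Fin r → G) Unit)
    (h0 : ∀ x, (alt t).sum (fun τ c => c * h (τ * x, ())) = 0) : h = 0 := by
  classical
  have hinj : Function.Injective (fun x : Fin r → G => x⁻¹) := inv_injective
  set α : (Fin r → G) →₀ ℂ := (alt t).mapDomain (fun x => x⁻¹) with hα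
  have hαne : α ≠ 0 := by
    intro hz
    apply alt_ne_zero t ht
    apply Finsupp.mapDomain_injective hinj
    rw [← hα, hz, Finsupp.mapDomain_zero]
  have h1 : Function.Injective (W649.ZL.cop α) := by
    apply W649.ZL.LI_coset_injective (fun s => (g s)⁻¹) (Subgroup.pi Set.univ H) (LI_pi H hH) α
    · intro x hx
      rw [hα, Finsupp.mapDomain_support_of_injective hinj, Finset.mem_image] at hx
      obtain ⟨y, hy, rfl⟩ := hx
      intro s _
      obtain ⟨k, hk⟩ := alt_support t y hy s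
      have h2 := (H s).inv_mem (hg s k _ hk)
      rw [mul_inv_rev, inv_inv] at h2
      change ((g s)⁻¹)⁻¹ * (y s)⁻¹ ∈ H s
      rw [inv_inv]
      exact h2
    · exact hαne
  apply h1
  rw [map_zero]
  ext ⟨x, ⟨⟩⟩
  rw [W649.ZL.cop_apply]
  have h2 : ∑ k ∈ α.support, α k * h (k⁻¹ * x, ()) = α.sum (fun k c => c * h (k⁻¹ * x, ())) := rfl
  rw [h2, hα, Finsupp.sum_mapDomain_index (by intros; simp) (by intros; ring)]
  simp only [inv_inv]
  rw [h0]
  rfl

end

end Pool.Agent.W5h34.BZ
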