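import Pool.Agent.W5h34.BZ.Inj

set_option autoImplicit false
set_option linter.unusedSectionVars false

open scoped InnerProductSpace InnerProduct ENNReal

/-! The Bezout inequality in monomial directions. -/

namespace Pool.Agent.W5h34.BZ

open Pool.Agent.W649.ZL (EE vd Eqv tr cosub LI kerDimM)
open Pool.Agent.W5h34.AT (op op_apply op_eqv)

universe u v w

section
variable {G : Type u} {r q : ℕ} {J : Type v} {L : Type w}
variable [Group G] [Fintype J] [Fintype L] [DecidableEq J] [DecidableEq L]

/-- the monomial directions -/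
noncomputable def mono (ρ : Fin q → J) (σ : Fin q → L) (t : Fin q → Fin r → (G →₀ ℂ)) (k : Fin r) :
    J → L → (G →₀ ℂ) :=
  fun j l => ∑ i, if ρ i = j ∧ σ i = l then t i k else 0

theorem mono_self (ρ : Fin q → J) (σ : Fin q → L) (hσ : Function.Injective σ)
    (t : Fin q → Fin r → (G →₀ ℂ)) (k : Fin r) (i i' : Fin q) (hρ : Function.Injective ρ) :
    mono ρ σ t k (ρ i) (σ i') = if i = i' then t i k else 0 := by
  unfold mono
  by_cases h : i = i'
  · subst h
    rw [if_pos rfl, Finset.sum_eq_single i]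
    · rw [if_pos ⟨rfl, rfl⟩]
    · intro b _ hb
      rw [if_neg]
      exact fun h => hb (hρ h.1)
    · intro hh; exact absurd (Finset.mem_univ _) hh
  · rw [if_neg h]
    refine Finset.sum_eq_zero fun b _ => ?_
    rw [if_neg]
    rintro ⟨h1, h2⟩
    exact h ((hρ h1).symm.trans (hσ h2))

theorem tprod_zero (u : Fin r → (G →₀ ℂ)) (s : Fin r) (h : u s = 0) : tprod u = 0 := by
  ext x
  rw [tprod_apply]
  exact Finset.prod_eq_zero (Finset.mem_univ s) (by rw [h]; rfl)

theorem bdet_mono (ρ : Fin q → J) (σ : Fin q → L) (hρ : Function.Injective ρ)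
    (hσ : Function.Injective σ) (t : Fin q → Fin r → (G →₀ ℂ)) (i i' : Fin r → Fin q) :
    bdet (mono ρ σ t) (fun s => ρ (i s)) (fun s => σ (i' s))
      = if i = i' then alt (fun s => t (i s)) else 0 := by
  unfold bdet
  by_cases h : i = i'
  · subst h
    rw [if_pos rfl]
    unfold alt
    refine Finset.sum_congr rfl fun π _ => ?_
    congr 2
    funext s
    rw [mono_self ρ σ hσ t (π s) (i s) (i s) hρ, if_pos rfl]
  · rw [if_neg h]
    obtain ⟨s, hs⟩ : ∃ s, i s ≠ i' s := by
      by_contra hc
      push Not at hc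
      exact h (funext hc)
    refine Finset.sum_eq_zero fun π _ => ?_
    rw [tprod_zero _ s, smul_zero]
    rw [mono_self ρ σ hσ t (π s) (i s) (i' s) hρ, if_neg hs]

theorem mono_ker (ρ : Fin q → J) (σ : Fin q → L) (hρ : Function.Injective ρ)
    (hσ : Function.Injective σ) (t : Fin q → Fin r → (G →₀ ℂ)) (ht : ∀ i, LinearIndependent ℂ (t i))
    (H : Fin q → Subgroup G) (hH : ∀ i, LI (H i)) (g : Fin q → G)
    (hg : ∀ i k, ∀ x ∈ (t i k).support, x * (g i)⁻¹ ∈ H i) :
    cosub (Fin r → G) (Fintype.piFinset fun _ : Fin r => Finset.univ.image ρ)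
      ⊓ LinearMap.ker (op (bdet (mono ρ σ t)) : EE (Fin r → G) (Fin r → J) →ₗ[ℂ]
          EE (Fin r → G) (Fin r → L)) = ⊥ := by
  rw [eq_bot_iff]
  rintro f ⟨hf1, hf2⟩
  have hf2' : op (bdet (mono ρ σ t)) f = 0 := hf2
  have key : ∀ i : Fin r → Fin q, ∀ x : Fin r → G, f (x, fun s => ρ (i s)) = 0 := by
    intro i
    have hinj : Function.Injective (fun y : (Fin r → G) × Unit =>
        ((y.1, fun s => ρ (i s)) : (Fin r → G) × (Fin r → J))) := by
      rintro ⟨a, ⟨⟩⟩ ⟨b, ⟨⟩⟩ hab
      exact congrArg (fun z : (Fin r → G) × (Fin r → J) => (z.1, ())) hab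
    let h : EE (Fin r → G) Unit := ⟨fun y => f (y.1, fun s => ρ (i s)),
      (W649.ZL.memlp_two_iff _).2
        (((W649.ZL.memlp_two_iff _).1 f.2).comp_injective hinj)⟩
    have hh : h = 0 := by
      apply alt_injective (fun s => t (i s)) (fun s => ht (i s)) (fun s => H (i s))
        (fun s => hH (i s)) (fun s => g (i s)) (fun s k => hg (i s) k)
      intro x
      have h1 := op_apply' (bdet (mono ρ σ t)) f x (fun s => σ (i s))
      rw [hf2', Finset.sum_eq_single (fun s => ρ (i s))] at h1
      · rw [bdet_mono ρ σ hρ hσ, if_pos rfl] at h1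
        exact h1.symm
      · intro j _ hj
        by_cases hjR : ∀ s, ∃ i', ρ i' = j s
        · choose i' hi' using hjR
          have e : j = fun s => ρ (i' s) := funext fun s => (hi' s).symm
          have hne : i' ≠ i := by
            intro hcon
            apply hj
            rw [e, hcon]
          rw [e, bdet_mono ρ σ hρ hσ, if_neg hne]
          exact Finsupp.sum_zero_index
        · have h0 : ∀ y : Fin r → G, f (y, j) = 0 := by
            intro y
            apply hf1
            intro hcon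
            apply hjR
            intro s
            have := (Fintype.mem_piFinset.1 hcon) s
            rw [Finset.mem_image] at this
            obtain ⟨i', -, hi'⟩ := this
            exact ⟨i', hi'⟩
          simp only [h0, mul_zero]
          exact Finsupp.sum_fun_zero _
      · intro hcon; exact absurd (Finset.mem_univ _) hcon
    intro x
    exact congrArg (fun z : EE (Fin r → G) Unit => z (x, ())) hh
  rw [Submodule.mem_bot]
  ext ⟨x, j⟩
  change f (x, j) = 0
  by_cases hjR : ∀ s, ∃ i', ρ i' = j s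
  · choose i' hi' using hjR
    have e : j = fun s => ρ (i' s) := funext fun s => (hi' s).symm
    rw [e]
    exact key i' x
  · apply hf1
    intro hcon
    apply hjR
    intro s
    have := (Fintype.mem_piFinset.1 hcon) s
    rw [Finset.mem_image] at this
    obtain ⟨i', -, hi'⟩ := this
    exact ⟨i', hi'⟩

/-- removing rows -/
theorem vd_rows (K : Submodule ℂ (EE G J)) (hK : W649.ZL.Inv K) (hKc : IsClosed (K : Set (EE G J)))
    (R : Finset J) : vd K - ((Fintype.card J : ℝ) - R.card) ≤ vd (cosub G R ⊓ K) := by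
  have hc := W649.ZL.cosub_closed (G := G) R
  have : CompleteSpace (cosub G R) := hc.completeSpace_coe
  have h1 := AT.vd_inf_orthogonal hK hKc (AT.orth_inv (W649.ZL.cosub_inv (G := G) R))
    (Submodule.isClosed_orthogonal (cosub G R))
  have h2 : (cosub G R)ᗮᗮ = cosub G R := Submodule.orthogonal_orthogonal _
  have h3 := W649.ZL.vd_sub hc (isClosed_univ : IsClosed ((⊤ : Submodule ℂ (EE G J)) : Set (EE G J)))
    le_top
  rw [top_inf_eq, W649.ZL.vd_top, W649.ZL.vd_cosub] at h3
  rw [h2, h3, inf_comm] at h1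
  exact h1

/-- **The Bezout inequality in monomial directions.** -/
theorem bezout_mono (a₀ : J → L → (G →₀ ℂ)) (ρ : Fin q → J) (σ : Fin q → L)
    (hρ : Function.Injective ρ) (hσ : Function.Injective σ) (t : Fin q → Fin r → (G →₀ ℂ))
    (ht : ∀ i, LinearIndependent ℂ (t i)) (H : Fin q → Subgroup G) (hH : ∀ i, LI (H i))
    (g : Fin q → G) (hg : ∀ i k, ∀ x ∈ (t i k).support, x * (g i)⁻¹ ∈ H i) (P : Finset (Fin r → ℂ)) :
    ∑ p ∈ P, (max (kerDimM (fam a₀ (mono ρ σ t) p) - ((Fintype.card J : ℝ) - q)) 0) ^ r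
      ≤ (q : ℝ) ^ r := by
  have hcardR : (Finset.univ.image ρ).card = q := by
    rw [Finset.card_image_of_injective _ hρ, Finset.card_univ, Fintype.card_fin]
  have h1 := bezout a₀ (mono ρ σ t) (cosub G (Finset.univ.image ρ))
    (W649.ZL.cosub_closed (G := G) _)
    (cosub (Fin r → G) (Fintype.piFinset fun _ : Fin r => Finset.univ.image ρ))
    (W649.ZL.cosub_inv (G := Fin r → G) _) (W649.ZL.cosub_closed (G := Fin r → G) _) (by
      intro f hf x j hj
      rw [Fintype.mem_piFinset] at hj
      push Not at hj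
      obtain ⟨s, hs⟩ := hj
      rw [tens_apply]
      exact Finset.prod_eq_zero (Finset.mem_univ s) (hf s _ _ hs)) P
  rw [mono_ker ρ σ hρ hσ t ht H hH g hg, W649.ZL.vd_bot, W649.ZL.vd_cosub,
    Fintype.card_piFinset_const, hcardR, sub_zero] at h1
  push_cast at h1
  refine le_trans (Finset.sum_le_sum fun p _ => ?_) h1
  rw [sub_zero]
  have h2 : kerDimM (fam a₀ (mono ρ σ t) p)
      = vd (LinearMap.ker (op (fam a₀ (mono ρ σ t) p) : EE G J →ₗ[ℂ] EE G L)) := by
    rw [AT.kerDimM_eq', AT.ker_op]
  have h3 := vd_rows (LinearMap.ker (op (fam a₀ (mono ρ σ t) p) : EE G J →ₗ[ℂ] EE G L))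
    (W649.ZL.inv_ker _ (op_eqv _)) (ContinuousLinearMap.isClosed_ker _) (Finset.univ.image ρ)
  rw [← h2, hcardR] at h3
  refine le_max_of_le_left ?_
  exact pow_le_pow_left₀ (le_max_right _ _) (max_le h3 (W649.ZL.vd_nonneg _)) r

end

end Pool.Agent.W5h34.BZ
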