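import Pool.Agent.W649.ZL.Generic

set_option autoImplicit false
set_option linter.unusedSectionVars false

open scoped InnerProductSpace InnerProduct ENNReal

/-! Tensor products of vectors, and the dimension of a space which contains them. -/

namespace Pool.Agent.W5h34.BZ

open Pool.Agent.W649.ZL

universe u v w

theorem hasSum_pi {X : Type u} (n : ℕ) (F : Fin n → X → ℝ) (h0 : ∀ i x, 0 ≤ F i x)
    (s : Fin n → ℝ) (hs : ∀ i, HasSum (F i) (s i)) :
    HasSum (fun x : Fin n → X => ∏ i, F i (x i)) (∏ i, s i) := by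
  induction n with
  | zero =>
    simp only [Finset.univ_eq_empty, Finset.prod_empty]
    exact hasSum_unique _
  | succ n ih =>
    have ih' := ih (fun i => F i.succ) (fun i x => h0 _ x) (fun i => s i.succ) (fun i => hs _)
    have hp : ∀ x : Fin n → X, 0 ≤ ∏ i : Fin n, F i.succ (x i) := fun x =>
      Finset.prod_nonneg fun i _ => h0 i.succ (x i)
    have h1 : Summable (fun p : X × (Fin n → X) => F 0 p.1 * ∏ i : Fin n, F i.succ (p.2 i)) :=
      Summable.mul_of_nonneg (f := F 0) (g := fun x : Fin n → X => ∏ i : Fin n, F i.succ (x i))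
        (hs 0).summable ih'.summable (fun x => h0 0 x) hp
    have h2 := (hs 0).mul ih' h1
    have e : ((fun x : Fin (n + 1) → X => ∏ i, F i (x i)) ∘ (Fin.consEquiv fun _ => X))
        = fun p : X × (Fin n → X) => F 0 p.1 * ∏ i : Fin n, F i.succ (p.2 i) := by
      funext p
      simp only [Function.comp_apply, Fin.consEquiv_apply, Fin.prod_univ_succ, Fin.cons_zero,
        Fin.cons_succ]
    rw [← (Fin.consEquiv (fun _ : Fin (n + 1) => X)).hasSum_iff, Fin.prod_univ_succ, e]
    exact h2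

section
variable {G : Type u} {J : Type w} {r : ℕ}

/-- the index sets -/
def pe (G : Type u) (J : Type w) (r : ℕ) : (Fin r → G) × (Fin r → J) ≃ (Fin r → G × J) where
  toFun y := fun i => (y.1 i, y.2 i)
  invFun z := (fun i => (z i).1, fun i => (z i).2)
  left_inv _ := rfl
  right_inv _ := rfl

theorem hasSum_sq (f : EE G J) : HasSum (fun x => ‖f x‖ ^ 2) (‖f‖ ^ 2) := by
  have h := lp.hasSum_norm (p := 2) (by norm_num) f
  simpa using h

theorem hasSum_tens (f : Fin r → EE G J) :
    HasSum (fun y : (Fin r → G) × (Fin r → J) => ‖∏ i, f i (y.1 i, y.2 i)‖ ^ 2)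
      (∏ i, ‖f i‖ ^ 2) := by
  have h := hasSum_pi r (fun i x => ‖f i x‖ ^ 2) (fun i x => by positivity)
    (fun i => ‖f i‖ ^ 2) (fun i => hasSum_sq (f i))
  rw [← (pe G J r).hasSum_iff] at h
  convert h using 1
  funext y
  rw [norm_prod, ← Finset.prod_pow]
  rfl

/-- the tensor product of vectors -/
noncomputable def tens (f : Fin r → EE G J) : EE (Fin r → G) (Fin r → J) :=
  ⟨fun y => ∏ i, f i (y.1 i, y.2 i), (memlp_two_iff _).2 (hasSum_tens f).summable⟩

theorem tens_apply (f : Fin r → EE G J) (y : (Fin r → G) × (Fin r → J)) :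
    tens f y = ∏ i, f i (y.1 i, y.2 i) := rfl

theorem norm_tens (f : Fin r → EE G J) : ‖tens f‖ ^ 2 = ∏ i, ‖f i‖ ^ 2 :=
  (hasSum_sq (tens f)).unique (hasSum_tens f)

variable [Group G] [Fintype J]

theorem vd_tens (K : Submodule ℂ (EE G J)) (hK : IsClosed (K : Set (EE G J)))
    (W : Submodule ℂ (EE (Fin r → G) (Fin r → J)))
    (hW : IsClosed (W : Set (EE (Fin r → G) (Fin r → J))))
    (h : ∀ f : Fin r → EE G J, (∀ i, f i ∈ K) → tens f ∈ W) : vd K ^ r ≤ vd W := by
  have : CompleteSpace K := hK.completeSpace_coe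
  have : CompleteSpace W := hW.completeSpace_coe
  rw [vd_eq K K (topcl_eq hK), vd_eq W W (topcl_eq hW), Fintype.sum_pow]
  refine Finset.sum_le_sum fun j _ => ?_
  set P : Fin r → EE G J := fun i => K.starProjection (dl ((1 : G), j i)) with hP
  set w := tens P with hw
  have hwW : w ∈ W := h P fun i => Submodule.starProjection_apply_mem K _
  set ρ : ℝ := ∏ i, ‖K.starProjection (dl ((1 : G), j i))‖ ^ 2 with hρ
  have hρ0 : 0 ≤ ρ := Finset.prod_nonneg fun i _ => by positivity
  have hnw : ‖w‖ ^ 2 = ρ := norm_tens P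
  set δ : EE (Fin r → G) (Fin r → J) := dl ((1 : Fin r → G), j) with hδ
  have h1 : ⟪δ, w⟫_ℂ = (ρ : ℂ) := by
    rw [hδ, inner_dl_left, hw, tens_apply, hρ]
    push_cast
    refine Finset.prod_congr rfl fun i _ => ?_
    have h2 : P i (1, j i) = ⟪(dl ((1 : G), j i) : EE G J), P i⟫_ℂ := (inner_dl_left _ _).symm
    have h3 : ⟪(dl ((1 : G), j i) : EE G J), P i⟫_ℂ = ⟪P i, P i⟫_ℂ := by
      have h4 : ⟪(dl ((1 : G), j i) : EE G J) - P i, P i⟫_ℂ = 0 :=
        Submodule.starProjection_inner_eq_zero _ _ (Submodule.starProjection_apply_mem K _)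
      rw [inner_sub_left, sub_eq_zero] at h4
      exact h4
    change P i (1, j i) = _
    rw [h2, h3, inner_self_eq_norm_sq_to_K]
    rfl
  have h2 : ⟪W.starProjection δ, w⟫_ℂ = (ρ : ℂ) := by
    rw [← h1]
    have h4 : ⟪δ - W.starProjection δ, w⟫_ℂ = 0 :=
      Submodule.starProjection_inner_eq_zero _ _ hwW
    rw [inner_sub_left, sub_eq_zero] at h4
    exact h4.symm
  have h3 : ρ ≤ ‖W.starProjection δ‖ * ‖w‖ := by
    have := norm_inner_le_norm (𝕜 := ℂ) (W.starProjection δ) w
    rw [h2, Complex.norm_real, Real.norm_eq_abs, abs_of_nonneg hρ0] at this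
    exact this
  have h4 : ρ ^ 2 ≤ ‖W.starProjection δ‖ ^ 2 * ρ := by
    calc ρ ^ 2 ≤ (‖W.starProjection δ‖ * ‖w‖) ^ 2 := pow_le_pow_left₀ hρ0 h3 2
      _ = _ := by rw [mul_pow, hnw]
  rcases hρ0.eq_or_lt with h0 | h0
  · rw [← h0]; positivity
  · rw [sq] at h4
    exact le_of_mul_le_mul_right h4 h0

end

end Pool.Agent.W5h34.BZ
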